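import Pool.Agent.R58.ApexColour

set_option autoImplicit false

/-!
Clustered 3-colouring fails for triangle-free 2-apex graphs: for every `c` there is a finite
triangle-free graph which becomes planar after the deletion of at most two vertices and which has
no 3-colouring in which every monochromatic component has at most `c` vertices.
-/

namespace Pool.Agent.Results.MP_01d970_co.TwoApex

open Pool.Agent.R58

theorem result (c : ℕ) :
    ∃ (V : Type) (_ : Fintype V) (G : SimpleGraph V) (A : Set V),
      G.CliqueFree 3 ∧ A.ncard ≤ 2 ∧ Planar (G.induce Aᶜ) ∧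
        ¬ ∃ χ : V → Fin 3, Clustered G χ c := by
  refine ⟨Bool ⊕ (Fin (2 * c + 1) × Gd (2 * c + 1)), inferInstance, big (2 * c + 1),
    apx (2 * c + 1), big_tri _, ?_, big_planar _, ?_⟩
  · rw [apx, ← Set.image_univ]
    refine (Set.ncard_image_le (Set.toFinite _)).trans ?_
    simp
  · rintro ⟨χ, hχ⟩
    exact big_not c χ hχ.wcl

end Pool.Agent.Results.MP_01d970_co.TwoApex
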